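import Mathlib
import Pool.Agent.R394.Grid.Area

namespace Pool.Agent.Results.MP_6b0309_co.GridBeats

open MeasureTheory Set Pool.Agent.R394.Grid
open scoped Pointwise

/-- The rectangle `[0, d] × [0, 1/d]` of area `1`. -/
def rect (d : ℝ) : Set (ℝ × ℝ) := Icc 0 d ×ˢ Icc 0 d⁻¹

/-- The area of the convex hull of a finite set of points of the plane. -/
noncomputable def hullArea (Y : Finset (ℝ × ℝ)) : ℝ :=
  (volume (convexHull ℝ (Y : Set (ℝ × ℝ)))).toReal

/-- `A'_k(P)`: the smallest area of the convex hull of a `k`-element subset of `P`. -/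
noncomputable def minHull (k : ℕ) (P : Finset (ℝ × ℝ)) : ℝ :=
  sInf {a | ∃ Y : Finset (ℝ × ℝ), Y ⊆ P ∧ Y.card = k ∧ a = hullArea Y}

/-- `Δ'_k(n)`: the supremum of `A'_k(P)` over all `0 < d ≤ 1` and all `n`-point sets `P`
contained in the rectangle `[0, d] × [0, 1/d]`. -/
noncomputable def Delta (k n : ℕ) : ℝ :=
  sSup {a | ∃ d : ℝ, 0 < d ∧ d ≤ 1 ∧ ∃ P : Finset (ℝ × ℝ),
    (P : Set (ℝ × ℝ)) ⊆ rect d ∧ P.card = n ∧ a = minHull k P}

theorem hullArea_nonneg (Y : Finset (ℝ × ℝ)) : 0 ≤ hullArea Y := ENNReal.toReal_nonneg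

theorem hullArea_le_one {d : ℝ} (hd : 0 < d) (Y : Finset (ℝ × ℝ))
    (hY : (Y : Set (ℝ × ℝ)) ⊆ rect d) : hullArea Y ≤ 1 := by
  have hconv : Convex ℝ (rect d) := (convex_Icc 0 d).prod (convex_Icc 0 d⁻¹)
  have hsub : convexHull ℝ (Y : Set (ℝ × ℝ)) ⊆ rect d := convexHull_min hY hconv
  have hvol : volume (rect d) = 1 := by
    rw [rect, Measure.volume_eq_prod, Measure.prod_prod, Real.volume_Icc, Real.volume_Icc,
      ← ENNReal.ofReal_mul (by linarith)]
    rw [sub_zero, sub_zero, mul_inv_cancel₀ hd.ne', ENNReal.ofReal_one]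
  have := measure_mono (μ := volume) hsub
  rw [hvol] at this
  rw [hullArea]
  exact ENNReal.toReal_mono (by simp) this

theorem minHull_le {k : ℕ} {P Y : Finset (ℝ × ℝ)} (hY : Y ⊆ P) (hk : Y.card = k) :
    minHull k P ≤ hullArea Y := by
  refine csInf_le ⟨0, ?_⟩ ⟨Y, hY, hk, rfl⟩
  rintro a ⟨Z, _, _, rfl⟩
  exact hullArea_nonneg Z

theorem minHull_le_Delta {k n : ℕ} (hkn : k ≤ n) {d : ℝ} (hd : 0 < d) (hd1 : d ≤ 1)
    (P : Finset (ℝ × ℝ)) (hP : (P : Set (ℝ × ℝ)) ⊆ rect d) (hn : P.card = n) :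
    minHull k P ≤ Delta k n := by
  refine le_csSup ⟨1, ?_⟩ ⟨d, hd, hd1, P, hP, hn, rfl⟩
  rintro a ⟨d', hd', _, P', hP', hn', rfl⟩
  obtain ⟨Y, hY, hYk⟩ := Finset.exists_subset_card_eq (show k ≤ P'.card by omega)
  refine (minHull_le hY hYk).trans (hullArea_le_one hd' Y ?_)
  exact fun y hy => hP' (hY hy)

/-- Every `k`-point subset of the `(x+1) × (x+1)` grid spanning the unit square has hull area
at least `(k - 2x - 1) / x^2`. -/
theorem grid_bound (x k : ℕ) (hx : 0 < x) (hk : 0 < k) (P0 : Finset (ℕ × ℕ))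
    (hP0 : ∀ p ∈ P0, p.1 < x + 1 ∧ p.2 < x + 1) (Y : Finset (ℝ × ℝ))
    (hY : Y ⊆ P0.image (fun p => ((x : ℝ)⁻¹) • emb p)) (hYk : Y.card = k) :
    ((k : ℝ) - 2 * x - 1) / (x : ℝ) ^ 2 ≤ hullArea Y := by
  classical
  have hxr : (0 : ℝ) < x := by exact_mod_cast hx
  have hinj : Function.Injective (fun p : ℕ × ℕ => ((x : ℝ)⁻¹) • emb p) := by
    intro p q h
    have h' : ((x : ℝ)⁻¹) • emb p = ((x : ℝ)⁻¹) • emb q := h
    have hx0 : ((x : ℝ)⁻¹) ≠ 0 := by positivity
    have := congrArg (fun z => (x : ℝ) • z) h'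
    simp only [smul_smul, mul_inv_cancel₀ hxr.ne', one_smul] at this
    exact emb_injective this
  set Y0 := P0.filter (fun p => ((x : ℝ)⁻¹) • emb p ∈ Y) with hY0
  have himg : Y0.image (fun p => ((x : ℝ)⁻¹) • emb p) = Y := by
    ext y
    constructor
    · intro hy
      obtain ⟨p, hp, rfl⟩ := Finset.mem_image.1 hy
      exact (Finset.mem_filter.1 hp).2
    · intro hy
      obtain ⟨p, hp, rfl⟩ := Finset.mem_image.1 (hY hy)
      exact Finset.mem_image.2 ⟨p, Finset.mem_filter.2 ⟨hp, hy⟩, rfl⟩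
  have hcard : Y0.card = k := by
    rw [← hYk, ← himg, Finset.card_image_of_injective _ hinj]
  have hset : (Y : Set (ℝ × ℝ)) = ((x : ℝ)⁻¹) • (emb '' (Y0 : Set (ℕ × ℕ))) := by
    rw [← himg, Finset.coe_image, ← Set.image_smul, Set.image_image]
  have hne : Y0.Nonempty := by rw [← Finset.card_pos, hcard]; exact hk
  have hfin : (emb '' (Y0 : Set (ℕ × ℕ))).Finite := Y0.finite_toSet.image _
  have hlt : volume (convexHull ℝ (emb '' (Y0 : Set (ℕ × ℕ)))) ≠ ⊤ :=
    (hfin.isCompact_convexHull (𝕜 := ℝ)).measure_lt_top.ne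
  have h1 := hull_area (x + 1) Y0 (fun p hp => hP0 p (Finset.mem_filter.1 hp).1) hne
  have h2 : ((k : ℝ) - 2 * x - 1) ≤ (volume (convexHull ℝ (emb '' (Y0 : Set (ℕ × ℕ))))).toReal := by
    rw [← ENNReal.ofReal_le_iff_le_toReal hlt]
    refine le_trans (ENNReal.ofReal_le_ofReal (le_of_eq ?_)) h1
    rw [hcard]; push_cast; ring
  rw [hullArea, hset, convexHull_smul, Measure.addHaar_smul, ENNReal.toReal_mul,
    ENNReal.toReal_ofReal (abs_nonneg _)]
  have hfr : Module.finrank ℝ (ℝ × ℝ) = 2 := by simp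
  rw [hfr, abs_of_nonneg (by positivity), div_eq_inv_mul, inv_pow]
  exact mul_le_mul_of_nonneg_left h2 (by positivity)

/-- For every `α ≥ 3` and every `k > 64 α + 1`, `Δ'_k(α (k-1)) > 1 / (2 (α - 1))`. In
particular the conjectured equality (for all `k ≥ 3`, `2 ≤ α ≤ k - 1`) is false. -/
theorem result :
    (∀ α k : ℕ, 3 ≤ α → 64 * α + 1 < k →
      1 / (2 * ((α : ℝ) - 1)) < Delta k (α * (k - 1))) ∧
    ¬ (∀ k α : ℕ, 3 ≤ k → 2 ≤ α → α ≤ k - 1 →
      Delta k (α * (k - 1)) = 1 / (2 * ((α : ℝ) - 1))) := by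
  have main : ∀ α k : ℕ, 3 ≤ α → 64 * α + 1 < k →
      1 / (2 * ((α : ℝ) - 1)) < Delta k (α * (k - 1)) := by
    intro α k hα hk
    classical
    set n := α * (k - 1) with hn
    have hkn1 : 3 * (k - 1) ≤ n := Nat.mul_le_mul_right _ hα
    have hkn : k ≤ n := by omega
    set x := Nat.sqrt (n - 1) with hx
    have hx1 : x * x ≤ n - 1 := Nat.sqrt_le (n - 1)
    have hx2 : n - 1 < (x + 1) * (x + 1) := Nat.lt_succ_sqrt (n - 1)
    have hn1 : 1 ≤ n := by omega
    have hnle : n ≤ (x + 1) * (x + 1) := by omega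
    have hx8 : 8 * α ≤ x := by
      rw [hx, Nat.le_sqrt]
      have h1 : α * (64 * α + 1) ≤ n := Nat.mul_le_mul_left _ (by omega)
      have h2 : 8 * α * (8 * α) + α = α * (64 * α + 1) := by ring
      omega
    have hx0 : 0 < x := by omega
    have hxr : (0 : ℝ) < x := by exact_mod_cast hx0
    have hgrid : ((Finset.range (x + 1)) ×ˢ (Finset.range (x + 1))).card = (x + 1) * (x + 1) := by
      simp
    obtain ⟨P0, hP0, hP0c⟩ := Finset.exists_subset_card_eq (show n ≤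
      ((Finset.range (x + 1)) ×ˢ (Finset.range (x + 1))).card by rw [hgrid]; exact hnle)
    have hP0' : ∀ p ∈ P0, p.1 < x + 1 ∧ p.2 < x + 1 := by
      intro p hp
      have := hP0 hp
      rw [Finset.mem_product, Finset.mem_range, Finset.mem_range] at this
      exact this
    have hinj : Function.Injective (fun p : ℕ × ℕ => ((x : ℝ)⁻¹) • emb p) := by
      intro p q h
      have h' : ((x : ℝ)⁻¹) • emb p = ((x : ℝ)⁻¹) • emb q := h
      have := congrArg (fun z => (x : ℝ) • z) h'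
      simp only [smul_smul, mul_inv_cancel₀ hxr.ne', one_smul] at this
      exact emb_injective this
    set P := P0.image (fun p => ((x : ℝ)⁻¹) • emb p) with hP
    have hPc : P.card = n := by rw [hP, Finset.card_image_of_injective _ hinj, hP0c]
    have hPr : (P : Set (ℝ × ℝ)) ⊆ rect 1 := by
      intro y hy
      obtain ⟨p, hp, rfl⟩ := Finset.mem_image.1 (Finset.mem_coe.1 hy)
      obtain ⟨h1, h2⟩ := hP0' p hp
      have h1' : (p.1 : ℝ) ≤ x := by exact_mod_cast Nat.lt_succ_iff.1 h1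
      have h2' : (p.2 : ℝ) ≤ x := by exact_mod_cast Nat.lt_succ_iff.1 h2
      have e : ∀ t : ℝ, t ≤ x → (x : ℝ)⁻¹ * t ≤ 1 := by
        intro t ht
        rw [inv_mul_le_iff₀ hxr]; linarith
      refine ⟨⟨?_, ?_⟩, ⟨?_, ?_⟩⟩
      · simp only [emb, Prod.smul_mk, smul_eq_mul]; positivity
      · simp only [emb, Prod.smul_mk, smul_eq_mul]; exact e _ h1'
      · simp only [emb, Prod.smul_mk, smul_eq_mul]; positivity
      · simp only [emb, Prod.smul_mk, smul_eq_mul, inv_one]; exact e _ h2'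
    have hD : minHull k P ≤ Delta k n := minHull_le_Delta hkn one_pos le_rfl P hPr hPc
    have hlow : ((k : ℝ) - 2 * x - 1) / (x : ℝ) ^ 2 ≤ minHull k P := by
      obtain ⟨Y1, hY1, hY1k⟩ := Finset.exists_subset_card_eq (show k ≤ P.card by omega)
      refine le_csInf ⟨_, Y1, hY1, hY1k, rfl⟩ ?_
      rintro a ⟨Y, hY, hYk, rfl⟩
      exact grid_bound x k hx0 (by omega) P0 hP0' Y hY hYk
    refine lt_of_lt_of_le (lt_of_lt_of_le ?_ hlow) hD
    have hαr : (3 : ℝ) ≤ α := by exact_mod_cast hα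
    have hx8r : 8 * (α : ℝ) ≤ x := by exact_mod_cast hx8
    have hxn : (x : ℝ) * x < α * (k - 1) := by
      have h1 : x * x < n := by omega
      have h2 : ((x * x : ℕ) : ℝ) < ((n : ℕ) : ℝ) := by exact_mod_cast h1
      rw [hn] at h2
      push_cast [Nat.cast_sub (show 1 ≤ k by omega)] at h2
      exact h2
    rw [div_lt_div_iff₀ (by linarith) (by positivity)]
    have hk1 : (x : ℝ) * x / α < (k : ℝ) - 1 := by
      rw [div_lt_iff₀ (by linarith)]; linarith
    have hα1 : (0 : ℝ) < 2 * ((α : ℝ) - 1) := by linarith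
    have step1 : ((x : ℝ) * x / α - 2 * x) * (2 * ((α : ℝ) - 1))
        < ((k : ℝ) - 2 * x - 1) * (2 * ((α : ℝ) - 1)) :=
      mul_lt_mul_of_pos_right (by linarith) hα1
    refine lt_of_le_of_lt ?_ step1
    have hαpos : (0 : ℝ) < α := by linarith
    have key : 0 ≤ (x : ℝ) * ((x : ℝ) * (α - 2) - 4 * α * (α - 1)) := by
      apply mul_nonneg hxr.le
      have : 8 * (α : ℝ) * (α - 2) ≤ x * (α - 2) :=
        mul_le_mul_of_nonneg_right hx8r (by linarith)
      nlinarith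
    have e1 : ((x : ℝ) * x / α - 2 * x) * (2 * ((α : ℝ) - 1)) - 1 * (x : ℝ) ^ 2
        = ((x : ℝ) * ((x : ℝ) * (α - 2) - 4 * α * (α - 1))) / α := by
      field_simp
      ring
    have e2 : 0 ≤ ((x : ℝ) * ((x : ℝ) * (α - 2) - 4 * α * (α - 1))) / α :=
      div_nonneg key hαpos.le
    linarith
  refine ⟨main, ?_⟩
  intro h
  have h1 := main 3 200 (le_refl _) (by norm_num)
  have h2 := h 200 3 (by norm_num) (by norm_num) (by norm_num)
  rw [h2] at h1
  exact lt_irrefl _ h1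

end Pool.Agent.Results.MP_6b0309_co.GridBeats
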